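import Pool.Agent.helper17.SG.SpecB

set_option autoImplicit false

open MeasureTheory Set Metric Filter Topology
open scoped ENNReal NNReal ComplexConjugate

namespace Pool.Agent.SG

theorem B12_inf (u : ℂ) (hu : ‖u‖ = 1) (c : ℝ) (hc : 0 < c) :
    {ξ : ℂ | ‖ξ‖ = 1 ∧ ‖ξ - u‖ < c}.Infinite := by
  set s : ℝ := min (c / 2) 1 with hs
  have hs0 : 0 < s := lt_min (by positivity) one_pos
  have hs1 : s ≤ 1 := min_le_right _ _
  have hsc : s < c := (min_le_left _ _).trans_lt (by linarith)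
  have hθ : ∀ k : ℕ, 0 < s / (k + 1) ∧ s / (k + 1) ≤ s := fun k => by
    have : (0 : ℝ) ≤ k := Nat.cast_nonneg k
    refine ⟨by positivity, ?_⟩
    exact div_le_self hs0.le (by linarith)
  refine Set.infinite_of_injective_forall_mem
    (f := fun k : ℕ => u * Complex.exp (((s / (k + 1) : ℝ) : ℂ) * Complex.I)) ?_ ?_
  · intro j k hjk
    have hu0 : u ≠ 0 := by
      intro h
      rw [h, norm_zero] at hu
      exact zero_ne_one hu
    have h1 : Complex.exp (((s / (j + 1) : ℝ) : ℂ) * Complex.I) =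
        Complex.exp (((s / (k + 1) : ℝ) : ℂ) * Complex.I) := mul_left_cancel₀ hu0 hjk
    have h2 := congrArg Complex.im h1
    rw [Complex.exp_ofReal_mul_I_im, Complex.exp_ofReal_mul_I_im] at h2
    have hpi : (1 : ℝ) < Real.pi / 2 := by linarith [Real.pi_gt_three]
    have h3 : s / ((j : ℝ) + 1) = s / ((k : ℝ) + 1) := by
      refine Real.injOn_sin ?_ ?_ h2
      · exact ⟨by linarith [(hθ j).1], by linarith [(hθ j).2]⟩
      · exact ⟨by linarith [(hθ k).1], by linarith [(hθ k).2]⟩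
    have hj : (0 : ℝ) < (j : ℝ) + 1 := by positivity
    have hk : (0 : ℝ) < (k : ℝ) + 1 := by positivity
    rw [div_eq_div_iff hj.ne' hk.ne'] at h3
    have h4 : (k : ℝ) + 1 = j + 1 := mul_left_cancel₀ hs0.ne' h3
    have h5 : (k : ℝ) = j := by linarith
    exact (Nat.cast_injective h5).symm
  · intro k
    refine ⟨?_, ?_⟩
    · rw [norm_mul, hu, one_mul, Complex.norm_exp_ofReal_mul_I]
    · have h1 : u * Complex.exp (((s / (k + 1) : ℝ) : ℂ) * Complex.I) - u =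
          u * (Complex.exp (((s / (k + 1) : ℝ) : ℂ) * Complex.I) - 1) := by ring
      rw [h1, norm_mul, hu, one_mul]
      have h2 := Real.norm_exp_I_mul_ofReal_sub_one_le (x := s / (k + 1))
      rw [mul_comm] at h2
      refine h2.trans_lt ?_
      rw [Real.norm_of_nonneg (hθ k).1.le]
      exact (hθ k).2.trans_lt hsc

theorem B12_sep (U : Finset ℂ) : ∃ ε : ℝ, 0 < ε ∧ ∀ x ∈ U, ∀ y ∈ U, x ≠ y → ε ≤ ‖x - y‖ := by
  by_cases h : U.offDiag.Nonempty
  · obtain ⟨p, hp, hmin⟩ := Finset.exists_min_image U.offDiag (fun p => ‖p.1 - p.2‖) h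
    rw [Finset.mem_offDiag] at hp
    refine ⟨‖p.1 - p.2‖, norm_pos_iff.mpr (sub_ne_zero.mpr hp.2.2), fun x hx y hy hxy => ?_⟩
    exact hmin (x, y) (Finset.mem_offDiag.mpr ⟨hx, hy, hxy⟩)
  · refine ⟨1, one_pos, fun x hx y hy hxy => ?_⟩
    exact absurd ⟨(x, y), Finset.mem_offDiag.mpr ⟨hx, hy, hxy⟩⟩ h

theorem B12 (hB03 : B03_stmt) (hB04 : B04_stmt) (hB07 : B07_stmt) (hB11 : B11_stmt) :
    B12_stmt := by
  intro Γ _ A hdisc hcoc Z hZne hZ1
  by_contra hcon
  have hinv : ∀ γ, ∀ ζ ∈ Z, A.act γ ζ ∈ Z := by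
    intro γ ζ hζ
    by_contra h
    exact hcon ⟨γ, ζ, hζ, h⟩
  obtain ⟨hk, -, -, -, hkinv, -⟩ := hB03 Γ A
  obtain ⟨C, hC, H11⟩ := hB11 Γ A hcoc
  have hC0 : 0 < C := by linarith
  obtain ⟨ζ, hζ⟩ := hZne
  -- a point away from `Z`
  obtain ⟨u, hu, huZ⟩ := (B12_inf 1 norm_one 10 (by norm_num)).exists_notMem_finset Z
  have hu1 : ‖u‖ = 1 := hu.1
  obtain ⟨ζ₀, hζ₀, hmin⟩ := Finset.exists_min_image Z (fun z => ‖z - u‖) ⟨ζ, hζ⟩
  have hd : 0 < ‖ζ₀ - u‖ := norm_pos_iff.mpr (sub_ne_zero.mpr fun h => huZ (h ▸ hζ₀))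
  set c : ℝ := ‖ζ₀ - u‖ / 3 with hc
  have hc0 : 0 < c := by positivity
  have hcZ : ∀ z ∈ Z, 3 * c ≤ ‖z - u‖ := fun z hz => by
    have := hmin z hz
    rw [hc]
    linarith
  set M : ℝ := C + C / c with hM
  have hCc : 0 < C / c := by positivity
  have hM1 : 1 ≤ M := by linarith
  obtain ⟨hfin, hcard⟩ := hB07 Γ A hdisc M hM1
  set N : ℕ := {δ | 1 / (9 * M ^ 4) ≤ A.kk δ}.ncard with hN
  obtain ⟨U, hU, hUcard⟩ := (B12_inf u hu1 c hc0).exists_subset_card_eq (N + 1)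
  obtain ⟨ε, hε, hsep⟩ := B12_sep U
  set t : ℝ := min (min 1 (c / C)) (ε / (4 * C)) with ht
  have ht0 : 0 < t := lt_min (lt_min one_pos (by positivity)) (by positivity)
  have ht1 : t ≤ 1 := (min_le_left _ _).trans (min_le_left _ _)
  have htc : C * t ≤ c := by
    have : t ≤ c / C := (min_le_left _ _).trans (min_le_right _ _)
    rw [le_div_iff₀ hC0] at this
    linarith
  have htε : 2 * (C * t) < ε := by
    have : t ≤ ε / (4 * C) := min_le_right _ _
    rw [le_div_iff₀ (by positivity)] at this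
    linarith
  have hex : ∀ v ∈ U, ∃ γ, t / C ≤ A.kk γ ∧ A.kk γ ≤ C * t ∧ ‖v - A.pt γ‖ ≤ C * t :=
    fun v hv => H11 v t (hU hv).1 ht0 ht1
  choose! g hg1 hg2 hg3 using hex
  have hginj : ∀ v ∈ U, ∀ w ∈ U, (g v)⁻¹ = (g w)⁻¹ → v = w := by
    intro v hv w hw h
    have h' : g v = g w := inv_injective h
    by_contra hne
    have h1 := hsep v hv w hw hne
    have h2 : ‖v - w‖ ≤ ‖v - A.pt (g v)‖ + ‖w - A.pt (g w)‖ := by
      rw [← h']
      have := norm_sub_le (v - A.pt (g v)) (w - A.pt (g v))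
      rwa [sub_sub_sub_cancel_right] at this
    have h3 := hg3 v hv
    have h4 := hg3 w hw
    linarith
  classical
  set F : Finset Γ := U.image fun v => (g v)⁻¹ with hF
  have hFcard : F.card = N + 1 := by
    rw [hF, Finset.card_image_of_injOn (fun v hv w hw h => hginj v hv w hw h), hUcard]
  have hle := hcard ζ t ht0 F (by
    intro γ hγ
    rw [hF, Finset.mem_image] at hγ
    obtain ⟨v, hv, rfl⟩ := hγ
    rw [hkinv]
    have hvu : ‖v - u‖ < c := (hU hv).2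
    have hact := hinv (g v) ζ hζ
    have hfar : c ≤ ‖A.act (g v) ζ - A.pt (g v)‖ := by
      have h1 := hcZ _ hact
      have h2 := hg3 v hv
      have h3 : ‖A.act (g v) ζ - u‖ ≤ ‖A.act (g v) ζ - A.pt (g v)‖ + ‖v - A.pt (g v)‖ + ‖v - u‖ := by
        have e : A.act (g v) ζ - u = (A.act (g v) ζ - A.pt (g v)) - (v - A.pt (g v)) + (v - u) := by
          ring
        rw [e]
        exact (norm_add_le _ _).trans (add_le_add (norm_sub_le _ _) le_rfl)
      linarith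
    have h4 := (hB04 Γ A (g v)).1 ζ (hZ1 ζ hζ)
    refine ⟨?_, ?_, ?_⟩
    · refine le_trans ?_ (hg1 v hv)
      exact div_le_div_of_nonneg_left ht0.le hC0 (by linarith)
    · refine (hg2 v hv).trans ?_
      exact mul_le_mul_of_nonneg_right (by linarith) ht0.le
    · rw [norm_sub_rev]
      have h5 : c * ‖ζ - A.pt (g v)⁻¹‖ ≤ C * t := by
        calc c * ‖ζ - A.pt (g v)⁻¹‖ ≤ ‖A.act (g v) ζ - A.pt (g v)‖ * ‖ζ - A.pt (g v)⁻¹‖ :=
              mul_le_mul_of_nonneg_right hfar (norm_nonneg _)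
          _ = A.kk (g v) := h4
          _ ≤ C * t := hg2 v hv
      have h6 : ‖ζ - A.pt (g v)⁻¹‖ ≤ C / c * t := by
        rw [div_mul_eq_mul_div, le_div_iff₀ hc0]
        linarith
      refine h6.trans ?_
      exact mul_le_mul_of_nonneg_right (by linarith) ht0.le)
  omega

end Pool.Agent.SG
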