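import Pool.Agent.helper17.SG.SpecR
import Pool.Agent.helper48.SG.SpecH
import Pool.Agent.helper56.SG.SpecG

/-!
# Glue (project sg:): the singularity of stationary measures in the cocompact case
-/

set_option autoImplicit false

open MeasureTheory Set Metric Filter Topology
open scoped ENNReal NNReal ComplexConjugate

namespace Pool.Agent.SG

/-- the input of part H from the output of part R -/
def COMP_stmt : Prop := ∀ (Γ : Type) [Group Γ] (A : DiscRep Γ) (W : Walk Γ) (ν : Measure ℂ),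
  Std A W ν → ν ≪ lam → ∃ C : ℝ, Comp A W ν C

theorem COMP (hB03 : B03_stmt) (hB12 : B12_stmt) (h4 : R04_stmt) (h7 : R07_stmt) (h9 : R09_stmt)
    (h10 : R10_stmt) : COMP_stmt := by
  intro Γ _ A W ν hν hac
  have hN : A.NonEl := hB12 Γ A hν.disc hν.coc
  have hD : StdD A W ν := ⟨hν.toStat, hν.disc, hN⟩
  obtain ⟨C4, hC4, H4⟩ := h4 Γ A W ν hD hac
  obtain ⟨C7, hC7, H7⟩ := h7 Γ A W ν hD hac
  obtain ⟨c9, hc9, H9⟩ := h9 Γ A W ν hD hac
  obtain ⟨C10, hC10, H10⟩ := h10 Γ A W ν hν hac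
  have hkk : ∀ γ, 0 < A.kk γ := fun γ => ((hB03 Γ A).1 γ).1
  have hc9' : 0 < 1 / c9 := by positivity
  set C : ℝ := C4 + C7 + C10 + 1 / c9 with hCdef
  have hC1 : 1 ≤ C := by linarith
  have hC0 : 0 < C := by linarith
  have e7 : ENNReal.ofReal C7 ≤ ENNReal.ofReal C := ENNReal.ofReal_le_ofReal (by linarith)
  have e10 : ENNReal.ofReal C10 ≤ ENNReal.ofReal C := ENNReal.ofReal_le_ofReal (by linarith)
  refine ⟨C, hC1, hν.disc, hν.coc, hN, hν.toStat, fun x => ?_, fun x => ?_, fun E hE => ?_,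
    fun E hE => ?_⟩
  · exact (H4 x).trans (ENNReal.ofReal_le_ofReal
      (mul_le_mul_of_nonneg_right (by linarith) (hkk x).le))
  · have h2 : 1 ≤ C * c9 := by
      have h3 : (1 / c9) * c9 ≤ C * c9 := mul_le_mul_of_nonneg_right (by linarith) hc9.le
      rwa [one_div_mul_cancel hc9.ne'] at h3
    calc ENNReal.ofReal (A.kk x) ≤ ENNReal.ofReal (C * (c9 * A.kk x)) := by
          refine ENNReal.ofReal_le_ofReal ?_
          rw [← mul_assoc]
          exact le_mul_of_one_le_left (hkk x).le h2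
      _ = ENNReal.ofReal C * ENNReal.ofReal (c9 * A.kk x) := ENNReal.ofReal_mul hC0.le
      _ ≤ ENNReal.ofReal C * W.hit 1 x := mul_le_mul' le_rfl (H9 x)
  · exact (H7 E hE).trans (mul_le_mul' e7 le_rfl)
  · exact (H10 E hE).trans (mul_le_mul' e10 le_rfl)

/-- singularity in the cocompact case -/
def SING_stmt : Prop := ∀ (Γ : Type) [Group Γ] (A : DiscRep Γ) (W : Walk Γ) (ν : Measure ℂ),
  (∃ φ : Γ →* Multiplicative ℝ, φ ≠ 1) → Std A W ν → Measure.MutuallySingular ν lam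

theorem SING (hB12 : B12_stmt) (hM9 : M09_stmt) (hC : COMP_stmt) (hH : H19_stmt) (hK : K12_stmt)
    (hG : SGG.GEX_stmt) : SING_stmt := by
  intro Γ _ A W ν hφ hν
  obtain ⟨φ, hφ⟩ := hφ
  have hN : A.NonEl := hB12 Γ A hν.disc hν.coc
  have hD : StdD A W ν := ⟨hν.toStat, hν.disc, hN⟩
  rcases hM9 Γ A W ν hD with hac | hs
  swap
  · exact hs
  exfalso
  obtain ⟨C, hcomp⟩ := hC Γ A W ν hν hac
  obtain ⟨f, C', a', hreg⟩ := hH Γ A W ν C hcomp
  obtain ⟨F, ψ, C₁, hC₁, hdiff, -, -, hequi, hgrow, -, z, hz, w, hw, hne⟩ :=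
    hG Γ A hν.disc hν.coc (fun γ => Multiplicative.toAdd (φ γ))
      (fun x y => by simp)
      (by
        by_contra hcon
        apply hφ
        ext γ
        have h1 : ¬ (Multiplicative.toAdd (φ γ) ≠ 0) := fun h => hcon ⟨γ, h⟩
        rw [not_not] at h1
        simpa using h1)
  have hE : EqHol A F ψ (max 1 C₁) := by
    refine ⟨le_max_left _ _, hdiff, fun γ z hz => hequi γ z (mem_ball_zero_iff.mpr hz),
      fun z hz => (hgrow z (mem_ball_zero_iff.mpr hz)).trans ?_⟩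
    refine mul_le_mul_of_nonneg_right (le_max_right _ _) ?_
    have h2 : 1 ≤ 1 / (1 - ‖z‖) := by
      rw [le_div_iff₀ (by linarith)]
      linarith [norm_nonneg z]
    linarith [Real.log_nonneg h2]
  have hconst := hK Γ A W F ψ (max 1 C₁) ν f C' a' hE hν hreg
  exact hne ((hconst z (mem_ball_zero_iff.mp hz)).trans (hconst w (mem_ball_zero_iff.mp hw)).symm)

end Pool.Agent.SG
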