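import Pool.Agent.helper17.SG.SpecR

set_option autoImplicit false

open MeasureTheory Set Metric Filter Topology
open scoped ENNReal NNReal ComplexConjugate

namespace Pool.Agent.SG

theorem R10 (hB03 : B03_stmt) (hB05 : B05_stmt) (hB11 : B11_stmt)
    (hB12 : B12_stmt) (hB17 : B17_stmt) (hM01 : M01_stmt) (hM02 : M02_stmt) (hM03 : M03_stmt)
    (hM04 : M04_stmt) (hM05 : M05_stmt) (hM12 : M12_stmt) (h9 : R09_stmt) : R10_stmt := by
  intro Γ _ A W ν hν hac
  have hN : A.NonEl := hB12 Γ A hν.disc hν.coc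
  have hD : StdD A W ν := ⟨hν.toStat, hν.disc, hN⟩
  have := hν.prob
  have := hB05.1
  obtain ⟨c, hc, H9⟩ := h9 Γ A W ν hD hac
  obtain ⟨C, hC, H11⟩ := hB11 Γ A hν.coc
  have hat := hM03 Γ A W ν hν.toStat hN
  obtain ⟨r0, hr0, H4⟩ := hM04 ν hν.supp hat (1 / 2) (by simp)
  obtain ⟨-, -, hlam, -, -⟩ := hB05
  obtain ⟨hpr, -, h1, -, -, -⟩ := hM01 Γ A W ν hν.toStat
  have hlν : lam ≪ ν := hM12 Γ A W ν hD hac
  set R : ℝ := 1 / r0 with hR
  have hR0 : 0 < R := by positivity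
  have H5 := hM05 Γ A W ν hν.toStat R (1 / 2) hR0 (fun z => by
    have : 1 / R = r0 := by rw [hR, one_div_one_div]
    rw [this]
    exact H4 z)
  have hkk : ∀ γ, 0 < A.kk γ := fun γ => ((hB03 Γ A).1 γ).1
  have hC0 : 0 < C := by linarith
  set K : ℝ := 2 * C ^ 2 * (1 + R) / c with hK
  have hK0 : 0 < K := by positivity
  refine ⟨max 1 K, le_max_left _ _, ?_⟩
  refine hB17 ν lam (ENNReal.ofReal (max 1 K)) ENNReal.ofReal_ne_top hlν ?_
  have hcirc : ∀ᵐ ζ ∂ν, ζ ∈ circ := by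
    rw [ae_iff]
    exact hν.supp
  filter_upwards [hcirc] with ζ hζ δ hδ
  have hζ1 : ‖ζ‖ = 1 := by simpa [circ] using hζ
  set r : ℝ := min (δ / 2) 1 with hr
  have hrpos : 0 < r := lt_min (by positivity) one_pos
  have hr1 : r ≤ 1 := min_le_right _ _
  have hrδ : r < δ := (min_le_left _ _).trans_lt (by linarith)
  refine ⟨r, hrpos, hrδ, ?_⟩
  set t : ℝ := r / (C * (1 + R)) with ht
  have hCR : 1 ≤ C * (1 + R) := by nlinarith
  have ht0 : 0 < t := by positivity
  have ht1 : t ≤ 1 := by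
    rw [ht, div_le_one (by linarith)]
    linarith
  have hrt : C * (1 + R) * t = r := by
    rw [ht]
    field_simp
  obtain ⟨w, hw1, hw2, hw3⟩ := H11 ζ t hζ1 ht0 ht1
  set B : Set ℂ := closedBall (A.pt w) (R * A.kk w) with hB
  have hBm : MeasurableSet B := measurableSet_closedBall
  have hsub : B ⊆ closedBall ζ r := by
    intro ξ hξ
    rw [hB, mem_closedBall, dist_eq_norm] at hξ
    rw [mem_closedBall, dist_eq_norm]
    have e1 : ‖ξ - ζ‖ ≤ ‖ξ - A.pt w‖ + ‖ζ - A.pt w‖ := by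
      have := norm_sub_le (ξ - A.pt w) (ζ - A.pt w)
      rwa [sub_sub_sub_cancel_right] at this
    have e2 : R * A.kk w ≤ R * (C * t) := mul_le_mul_of_nonneg_left hw2 hR0.le
    have e3 : C * (1 + R) * t = R * (C * t) + C * t := by ring
    linarith
  have hhalf : (1 / 2 : ℝ≥0∞) ≤ nux A ν w B := by
    have := hpr w
    have e1 : (1 : ℝ≥0∞) ≤ nux A ν w B + 1 / 2 := by
      calc (1 : ℝ≥0∞) = nux A ν w univ := measure_univ.symm
        _ = nux A ν w (B ∪ Bᶜ) := by rw [union_compl_self]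
        _ ≤ nux A ν w B + nux A ν w Bᶜ := measure_union_le _ _
        _ ≤ nux A ν w B + 1 / 2 := add_le_add le_rfl (H5 w)
    have e2 : (1 / 2 : ℝ≥0∞) + 1 / 2 ≤ nux A ν w B + 1 / 2 := by
      rw [ENNReal.add_halves]
      exact e1
    have e3 : (1 / 2 : ℝ≥0∞) ≠ ⊤ := by simp
    exact (ENNReal.add_le_add_iff_right e3).mp e2
  have hlow : ENNReal.ofReal (c * (t / C)) * (1 / 2) ≤ ν (closedBall ζ r) := by
    calc ENNReal.ofReal (c * (t / C)) * (1 / 2)
        ≤ W.hit 1 w * nux A ν w B := by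
          refine mul_le_mul' ((ENNReal.ofReal_le_ofReal ?_).trans (H9 w)) hhalf
          exact mul_le_mul_of_nonneg_left hw1 hc.le
      _ ≤ nux A ν 1 B := hM02 Γ A W ν hν.toStat 1 w B hBm
      _ = ν B := by rw [h1]
      _ ≤ ν (closedBall ζ r) := measure_mono hsub
  calc lam (closedBall ζ r) ≤ ENNReal.ofReal r := (hlam ζ r hζ1 hrpos.le (by linarith)).2
    _ = ENNReal.ofReal K * (ENNReal.ofReal (c * (t / C)) * (1 / 2)) := by
        have e1 : (1 / 2 : ℝ≥0∞) = ENNReal.ofReal (1 / 2) := by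
          rw [ENNReal.ofReal_div_of_pos (by norm_num)]
          simp
        rw [e1, ← ENNReal.ofReal_mul (by positivity), ← ENNReal.ofReal_mul hK0.le]
        congr 1
        rw [hK, ← hrt]
        field_simp
    _ ≤ ENNReal.ofReal (max 1 K) * ν (closedBall ζ r) :=
        mul_le_mul' (ENNReal.ofReal_le_ofReal (le_max_right _ _)) hlow

end Pool.Agent.SG
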