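import Pool.Agent.helper17.SG.SpecR

set_option autoImplicit false

open MeasureTheory Set Metric Filter Topology
open scoped ENNReal NNReal ComplexConjugate

namespace Pool.Agent.SG

theorem R11 (hB01 : B01_stmt) (hB03 : B03_stmt) (hB12 : B12_stmt) (hM01 : M01_stmt)
    (hP01 : P01_stmt) (h4 : R04_stmt) (h7 : R07_stmt) (h9 : R09_stmt) (h10 : R10_stmt) :
    R11_stmt := by
  intro Γ _ A W ν hν hac
  have hD : StdD A W ν := ⟨hν.toStat, hν.disc, hB12 Γ A hν.disc hν.coc⟩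
  obtain ⟨C4, hC4, H4⟩ := h4 Γ A W ν hD hac
  obtain ⟨C7, hC7, H7⟩ := h7 Γ A W ν hD hac
  obtain ⟨c9, hc9, H9⟩ := h9 Γ A W ν hD hac
  obtain ⟨C10, hC10, H10⟩ := h10 Γ A W ν hν hac
  obtain ⟨-, -, -, -, -, -, -, hmeas, -, -⟩ := hB01 Γ A
  obtain ⟨-, -, -, -, hnux, -⟩ := hM01 Γ A W ν hν.toStat
  obtain ⟨-, -, -, -, hinv⟩ := hP01 Γ W
  have hkk : ∀ γ, 0 < A.kk γ := fun γ => ((hB03 Γ A).1 γ).1
  set C : ℝ := C4 + C7 + C10 + 1 / c9 with hCdef
  have hc9' : 0 < 1 / c9 := by positivity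
  have hC1 : 1 ≤ C := by linarith
  have hC0 : 0 < C := by linarith
  have e7 : ENNReal.ofReal C7 ≤ ENNReal.ofReal C := ENNReal.ofReal_le_ofReal (by linarith)
  have e10 : ENNReal.ofReal C10 ≤ ENNReal.ofReal C := ENNReal.ofReal_le_ofReal (by linarith)
  refine ⟨C, hC1, fun x E hE => ?_, fun x y => ?_⟩
  · have hE' : MeasurableSet (A.act x ⁻¹' E) := hmeas x hE
    have h1 : lax A x E = lam (A.act x ⁻¹' E) := Measure.map_apply (hmeas x) hE
    rw [hnux x E hE, h1]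
    exact ⟨(H7 _ hE').trans (mul_le_mul' e7 le_rfl), (H10 _ hE').trans (mul_le_mul' e10 le_rfl)⟩
  · have h1 : W.hit x y = W.hit 1 (x⁻¹ * y) := by
      have := hinv x 1 (x⁻¹ * y)
      rwa [mul_one, mul_inv_cancel_left] at this
    rw [h1]
    have hk := hkk (x⁻¹ * y)
    refine ⟨(H4 _).trans (ENNReal.ofReal_le_ofReal ?_), le_trans (ENNReal.ofReal_le_ofReal ?_)
      (H9 _)⟩
    · exact mul_le_mul_of_nonneg_right (by linarith) hk.le
    · rw [div_le_iff₀ hC0]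
      have h2 : 1 ≤ c9 * C := by
        have h3 : c9 * (1 / c9) ≤ c9 * C := mul_le_mul_of_nonneg_left (by linarith) hc9.le
        rwa [mul_one_div_cancel hc9.ne'] at h3
      calc A.kk (x⁻¹ * y) = 1 * A.kk (x⁻¹ * y) := (one_mul _).symm
        _ ≤ (c9 * C) * A.kk (x⁻¹ * y) := mul_le_mul_of_nonneg_right h2 hk.le
        _ = c9 * A.kk (x⁻¹ * y) * C := by ring

end Pool.Agent.SG
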