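import Pool.Agent.helper17.SG.Defs

/-!
# SpecB: geometry of the disc, packing, density lemmas (project sg:)

Notation in the docstrings: `p = pt γ`, `q = pt γ⁻¹`, `p̄` = complex conjugate, `h_u z = i(u-z)/(u+z)`
(maps the disc to the upper half plane, `Hu u γ = |h_u (pt γ)|`, `Im h_u z = (1-|z|^2)/|u+z|^2`,
`|h_u z - h_u w| = 2|z-w|/(|u+z||u+w|)`, `|h_u z - conj (h_u w)| = 2|1 - z̄ w|/(|u+z||u+w|)`;
inverse map `w ↦ u(i-w)/(i+w)`).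
-/

set_option autoImplicit false

open MeasureTheory Set Metric Filter Topology
open scoped ENNReal NNReal ComplexConjugate

namespace Pool.Agent.SG

/-- B01. Basic facts about the action.
Proof. For `|z| ≤ 1` the denominator `conj b * z + conj a` is not `0` since `|a| > |b|`;
`|conj b z + conj a|^2 - |a z + b|^2 = (|a|^2-|b|^2)(1-|z|^2)`. `mob a b` is injective on the closed
disc (`mob a b z - mob a b w = (z-w)/(den z * den w)`). From `map_mul 1 1` and injectivity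
`act 1 z = z`. -/
def B01_stmt : Prop := ∀ (Γ : Type) [Group Γ] (A : DiscRep Γ),
  (∀ γ z, ‖z‖ ≤ 1 → ‖A.act γ z‖ ≤ 1) ∧ (∀ γ z, ‖z‖ < 1 → ‖A.act γ z‖ < 1) ∧
  (∀ γ z, ‖z‖ = 1 → ‖A.act γ z‖ = 1) ∧ (∀ z, ‖z‖ ≤ 1 → A.act 1 z = z) ∧
  (∀ γ δ z, ‖z‖ ≤ 1 → A.act (γ * δ) z = A.act γ (A.act δ z)) ∧
  (∀ γ z, ‖z‖ ≤ 1 → A.act γ⁻¹ (A.act γ z) = z) ∧ (∀ γ z, ‖z‖ ≤ 1 → A.act γ (A.act γ⁻¹ z) = z) ∧
  (∀ γ, Measurable (A.act γ)) ∧ (∀ γ, ContinuousOn (A.act γ) (closedBall 0 1)) ∧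
  (∀ γ, DifferentiableOn ℂ (A.act γ) (ball 0 1))

/-- B02. The three invariance identities.
Proof. `act z - act w = (z-w)/((b̄ z + ā)(b̄ w + ā))`,
`1 - |act z|^2 = (1-|z|^2)/|b̄ z + ā|^2`, `1 - conj(act z) act w = (1 - z̄ w)/(conj(b̄ z + ā)(b̄ w+ā))`,
`kk γ = 1 - |b/ā|^2 = 1/|a|^2`, and `pt γ⁻¹ = -b/a` (it is the point mapped to `0` by `act γ`), so
`|1 - conj(pt γ⁻¹) z| = |b̄ z + ā|/|a|`. -/
def B02_stmt : Prop := ∀ (Γ : Type) [Group Γ] (A : DiscRep Γ) (γ : Γ),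
  (∀ z w, ‖z‖ ≤ 1 → ‖w‖ ≤ 1 → ‖A.act γ z - A.act γ w‖ * ‖1 - conj (A.pt γ⁻¹) * z‖ *
    ‖1 - conj (A.pt γ⁻¹) * w‖ = A.kk γ * ‖z - w‖) ∧
  (∀ z, ‖z‖ ≤ 1 → (1 - ‖A.act γ z‖ ^ 2) * ‖1 - conj (A.pt γ⁻¹) * z‖ ^ 2 =
    A.kk γ * (1 - ‖z‖ ^ 2)) ∧
  (∀ z w, ‖z‖ ≤ 1 → ‖w‖ ≤ 1 → ‖1 - conj (A.act γ z) * A.act γ w‖ * ‖1 - conj (A.pt γ⁻¹) * z‖ *
    ‖1 - conj (A.pt γ⁻¹) * w‖ = A.kk γ * ‖1 - conj z * w‖)

/-- B03. Consequences for `kk` and `pt` (uses B01, B02).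
Proof. `pt (γ δ) = act γ (pt δ)`; the fifth item is B02 (2) with `z = pt δ`; the inequalities follow
from `|1 - q̄ pt δ| ≤ 2`; for `kk γ⁻¹ = kk γ`: `|pt γ⁻¹| = |b/a| = |pt γ|` (or from the fifth item
with `δ = γ⁻¹`). `kk (γ δ) kk δ ≤ 4 kk γ` is the inequality for `(γ δ) δ⁻¹`. -/
def B03_stmt : Prop := ∀ (Γ : Type) [Group Γ] (A : DiscRep Γ),
  (∀ γ, 0 < A.kk γ ∧ A.kk γ ≤ 1) ∧ A.kk 1 = 1 ∧ A.pt 1 = 0 ∧ (∀ γ, ‖A.pt γ‖ < 1) ∧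
  (∀ γ, A.kk γ⁻¹ = A.kk γ) ∧ (∀ γ δ, A.pt (γ * δ) = A.act γ (A.pt δ)) ∧
  (∀ γ δ, A.kk (γ * δ) * ‖1 - conj (A.pt γ⁻¹) * A.pt δ‖ ^ 2 = A.kk γ * A.kk δ) ∧
  (∀ γ δ, A.kk (γ⁻¹ * δ) * ‖1 - conj (A.pt γ) * A.pt δ‖ ^ 2 = A.kk γ * A.kk δ) ∧
  (∀ γ δ, A.kk γ * A.kk δ ≤ 4 * A.kk (γ * δ)) ∧ (∀ γ δ, A.kk (γ * δ) * A.kk δ ≤ 4 * A.kk γ) ∧
  (∀ γ δ, A.kk (γ * δ) * A.kk γ ≤ 4 * A.kk δ) ∧
  (∀ γ δ, ‖A.pt (γ * δ) - A.pt γ‖ * ‖1 - conj (A.pt γ⁻¹) * A.pt δ‖ = A.kk γ * ‖A.pt δ‖)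

/-- B04. Points of the circle (uses B01, B02). For `|ξ| = 1`, `|1 - q̄ ξ| = |ξ - q|`.
The last item: `|ξ - p| ≥ 1 - |p| ≥ (1-|p|^2)/2`. -/
def B04_stmt : Prop := ∀ (Γ : Type) [Group Γ] (A : DiscRep Γ) (γ : Γ),
  (∀ ξ, ‖ξ‖ = 1 → ‖A.act γ ξ - A.pt γ‖ * ‖ξ - A.pt γ⁻¹‖ = A.kk γ) ∧
  (∀ z, ‖z‖ ≤ 1 → ‖A.act γ z - A.pt γ‖ * ‖1 - conj (A.pt γ⁻¹) * z‖ = A.kk γ * ‖z‖) ∧
  (∀ ξ η, ‖ξ‖ = 1 → ‖η‖ = 1 →
    ‖A.act γ ξ - A.act γ η‖ * (‖ξ - A.pt γ⁻¹‖ * ‖η - A.pt γ⁻¹‖) = A.kk γ * ‖ξ - η‖) ∧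
  (∀ ξ, ‖ξ‖ = 1 → A.kk γ / 2 ≤ ‖ξ - A.pt γ‖)

/-- B05. The measure `lam`. Proof: the closed ball of radius `r ≤ 2` around a point of the circle
meets the circle in an arc of angular half width `2 arcsin (r/2)`, so its measure is
`(2/π) arcsin(r/2) ∈ [r/π, r/2]`. If `closedBall z r` meets the circle at `ξ` it is contained in
`closedBall ξ (2 r)`. -/
def B05_stmt : Prop :=
  IsProbabilityMeasure lam ∧ lam circᶜ = 0 ∧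
  (∀ (ξ : ℂ) (r : ℝ), ‖ξ‖ = 1 → 0 ≤ r → r ≤ 2 → ENNReal.ofReal (r / 4) ≤ lam (closedBall ξ r) ∧
    lam (closedBall ξ r) ≤ ENNReal.ofReal r) ∧
  (∀ (z : ℂ) (r : ℝ), 0 ≤ r → lam (closedBall z r) ≤ ENNReal.ofReal r) ∧
  (∀ f : ℂ → ℝ≥0∞, Measurable f → ∫⁻ ξ, f ξ ∂lam =
    (ENNReal.ofReal (2 * Real.pi))⁻¹ * ∫⁻ θ in Ioc 0 (2 * Real.pi), f (circleMap 0 1 θ))

/-- B06. Change of variables on the circle.
Proof. Both sides are finite measures on `ℂ` carried by the circle; trigonometric polynomials are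
dense in the continuous functions on the circle, so it is enough to integrate `ξ^n` and `conj ξ^n`,
`n ≥ 0`. Left: `∫ (act γ ξ)^n dlam ξ = (act γ 0)^n` by the mean value property of the function
`z ↦ (act γ z)^n`, holomorphic in the open disc and continuous on the closed one
(`circleAverage` / `DiffContOnCl` mean value). Right: `∫ ξ^n P(z,ξ) dlam ξ = z^n` from the uniformly
convergent expansion `P(z,ξ) = ∑_{n ≥ 0} (z ξ̄)^n + ∑_{n ≥ 1} (z̄ ξ)^n` and orthogonality.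
(Any other proof is fine, e.g. substitution in the angle.) -/
def B06_stmt : Prop := ∀ (Γ : Type) [Group Γ] (A : DiscRep Γ) (γ : Γ),
  lax A γ = lam.withDensity fun ξ => ENNReal.ofReal (poi (A.pt γ) ξ)

/-- B07. Packing (uses B03).
Proof. Let `γ₀, γ ∈ F`. `|1 - conj(pt γ₀) pt γ| ≤ (1-|pt γ₀|^2) + |pt γ₀ - pt γ| ≤ 3 M τ`
(kk γ₀ ≤ Mτ, and the points are in a ball of radius Mτ). Hence
`kk (γ₀⁻¹ γ) = kk γ₀ kk γ / |..|^2 ≥ (τ/M)^2/(3Mτ)^2 = 1/(9 M^4)`; so `γ ∈ γ₀ * {δ | 1/(9M^4) ≤ kk δ}`,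
a finite set. -/
def B07_stmt : Prop := ∀ (Γ : Type) [Group Γ] (A : DiscRep Γ), A.Discrete → ∀ M : ℝ, 1 ≤ M →
  {δ | 1 / (9 * M ^ 4) ≤ A.kk δ}.Finite ∧
  ∀ (z : ℂ) (τ : ℝ), 0 < τ → ∀ F : Finset Γ,
    (∀ γ ∈ F, τ / M ≤ A.kk γ ∧ A.kk γ ≤ M * τ ∧ ‖A.pt γ - z‖ ≤ M * τ) →
    F.card ≤ {δ | 1 / (9 * M ^ 4) ≤ A.kk δ}.ncard

/-- B08. Counting (uses B03, B07).
Proof. First the annulus sum. A point with `τ/M ≤ kk γ ≤ τ` is within `1 - |pt γ| ≤ kk γ ≤ τ` of the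
circle. Cover the circle by at most `20/τ` balls of radius `τ` (`τ ≤ 1`); by B07 with constant
`M' = 2 M` each ball of radius `2 τ` contains at most `N` of the points. So the number of points is
at most `20 N/τ`, and the sum of `kk` at most `20 N`. The count of all `γ` with `τ ≤ kk γ`: sum
the counts for `kk γ ∈ [2^j τ, 2^(j+1) τ]`, each at most `40 N'/(2^j τ)`. -/
def B08_stmt : Prop := ∀ (Γ : Type) [Group Γ] (A : DiscRep Γ), A.Discrete → ∀ M : ℝ, 1 ≤ M →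
  ∃ C : ℝ, 0 < C ∧ ∀ τ : ℝ, 0 < τ → τ ≤ 1 →
    (∀ F : Finset Γ, (∀ γ ∈ F, τ ≤ A.kk γ) → (F.card : ℝ) ≤ C / τ) ∧
    ∑' γ, {γ | τ / M ≤ A.kk γ ∧ A.kk γ ≤ τ}.indicator A.ke γ ≤ ENNReal.ofReal C

/-- B09. Layer sums (uses B03, B07).
Proof. Let `j ≥ 0` and let `F_j` be the set of `γ` in the set with
`η t 2^(-j-1) < kk γ ≤ η t 2^(-j)`. For `γ` in the set let `z = pt γ`, `h = h_u z`. Since `Hu ≤ 1`,
`|u+z| ≥ 1`, so `0 < Im h ≤ kk γ`; `||h| - t| ≤ M kk γ` gives that `h` is within `(M+2) kk γ` of `t`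
or `-t`, hence `z` is within `2(M+2) kk γ` of one of the two points `u(i ∓ t)/(i ± t)` of the circle
(the inverse map is 2-Lipschitz on the closed upper half plane). By B07 (constant `4(M+2)`,
`τ = η t 2^(-j)`) `F_j` has at most `2 N` elements. Sum over `j`: `≤ 4 N η t`. -/
def B09_stmt : Prop := ∀ (Γ : Type) [Group Γ] (A : DiscRep Γ), A.Discrete → ∀ M : ℝ, 1 ≤ M →
  ∃ C : ℝ, 0 < C ∧ ∀ (u : ℂ) (t η : ℝ), ‖u‖ = 1 → 0 < t → t ≤ 1 → 0 < η →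
    ∑' γ, {γ | A.Hu u γ ≤ 1 ∧ A.Hu u γ ≤ M * t ∧ |A.Hu u γ - t| ≤ M * A.kk γ ∧
      A.kk γ ≤ η * t}.indicator A.ke γ ≤ ENNReal.ofReal (C * η * t)

/-- B10. Bounded jumps (uses B03).
Proof. `|pt (x s) - pt x| = kk x |pt s| / |1 - conj(pt x⁻¹) pt s| ≤ kk x/(1-|pt s|)`; the `kk`
inequalities are in B03 (with `kk s`, `kk s⁻¹` bounded below on the finite set). For `Hu`: with
`z = pt x`, `z' = pt (x s)`: `|u - z'| ≤ |u-z| + M kk x ≤ (1+2M)|u - z|` because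
`kk x ≤ 2(1-|z|) ≤ 2|u-z|`; `|u+z| ≤ |u+z'| + M kk x ≤ (1+2M^2)|u+z'|` in the same way; so
`Hu (x s) ≤ M' Hu x`. If `Hu x ≤ 1` then `|u+z| ≥ 1`, `|u+z'| ≥ 1/(1+2M^2)` and
`|Hu (x s) - Hu x| ≤ |h_u z' - h_u z| = 2|z-z'|/(|u+z||u+z'|)`. -/
def B10_stmt : Prop := ∀ (Γ : Type) [Group Γ] (A : DiscRep Γ) (S₀ : Finset Γ),
  ∃ M : ℝ, 1 ≤ M ∧ ∀ x, ∀ s ∈ S₀, A.kk (x * s) ≤ M * A.kk x ∧ A.kk x ≤ M * A.kk (x * s) ∧
    ‖A.pt (x * s) - A.pt x‖ ≤ M * A.kk x ∧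
    ∀ u : ℂ, ‖u‖ = 1 → A.Hu u (x * s) ≤ M * A.Hu u x ∧
      (A.Hu u x ≤ 1 → |A.Hu u (x * s) - A.Hu u x| ≤ M * A.kk x)

/-- B11. Orbit points near every point (uses B01, B02, B03).
Proof. Let `r < 1` be from cocompactness (may assume `0 ≤ r`), `z = (1 - t/2) u`, and `γ` with
`|act γ⁻¹ z| ≤ r`; `w = act γ⁻¹ z`, `z = act γ w`. B02 (2): `(1-|z|^2)|1 - q̄ w|^2 = kk γ (1-|w|^2)`
with `1 - r ≤ |1-q̄ w| ≤ 2`, `1-|z|^2 ∈ [t/2, t]`; and `|z - pt γ| = kk γ |w|/|1-q̄ w| ≤ kk γ/(1-r)`. -/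
def B11_stmt : Prop := ∀ (Γ : Type) [Group Γ] (A : DiscRep Γ), A.Cocompact →
  ∃ C : ℝ, 1 ≤ C ∧ ∀ (u : ℂ) (t : ℝ), ‖u‖ = 1 → 0 < t → t ≤ 1 →
    ∃ γ, t / C ≤ A.kk γ ∧ A.kk γ ≤ C * t ∧ ‖u - A.pt γ‖ ≤ C * t

/-- B12. Discrete and cocompact implies nonelementary (uses B01, B03, B04, B07, B11).
Proof. Let `Z` be finite, nonempty, mapped into itself by all `γ`, `ζ ∈ Z`. There are a point `u` of
the circle and `c > 0` such that all points of the circle in `ball u c` have distance `≥ 2c` from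
`Z`. Let `C` be from B11, `t` small. Choose `≥ c/(100 C t)` points `u_k` of the circle in `ball u c`
with mutual distances `> 2 C t`, and `γ_k` from B11 for `u_k`, `t`: the `γ_k` are distinct and
`|ζ' - pt γ_k| ≥ c` for all `ζ' ∈ Z` (if `C t ≤ c`). Since `act γ_k ζ ∈ Z`, B04 gives
`|ζ - pt γ_k⁻¹| = kk γ_k/|act γ_k ζ - pt γ_k| ≤ C t/c`. So all `γ_k⁻¹` satisfy the conditions of B07
with `z = ζ`, `τ = t`, `M = C/c + C`: their number is bounded independently of `t`. Contradiction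
for `t → 0`. -/
def B12_stmt : Prop := ∀ (Γ : Type) [Group Γ] (A : DiscRep Γ), A.Discrete → A.Cocompact → A.NonEl

/-- B13. Good concatenation (uses B01, B03).
Proof. For `(z, w)` in the compact set `closedBall 0 1 ×ˢ closedBall 0 1` there is `t : Γ` with
`conj z * act t w ≠ 1`: if `|z| < 1` or `|w| < 1` every `t` works (`|conj z * act t w| < 1`); if
`|z| = |w| = 1` then `conj z * act t w = 1` iff `act t w = z`; if this held for all `t`, then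
(`t = 1`) `z = w` and `{w}` would be invariant, contradicting `NonEl`. The sets
`{(z,w) | conj z * act t w ≠ 1}` are relatively open; take a finite subcover `T₀`; the continuous
function `max_{t ∈ T₀} |1 - conj z act t w|` has a positive minimum. -/
def B13_stmt : Prop := ∀ (Γ : Type) [Group Γ] (A : DiscRep Γ), A.NonEl →
  ∃ T₀ : Finset Γ, ∃ c : ℝ, 0 < c ∧ ∀ z w : ℂ, ‖z‖ ≤ 1 → ‖w‖ ≤ 1 →
    ∃ t ∈ T₀, c ≤ ‖1 - conj z * A.act t w‖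

/-- B14. `NonEl` implies infinite (the orbit of `1` would be a finite invariant set); discrete
implies countable and that `{γ | τ ≤ kk γ}` is finite (uses B01, B03). -/
def B14_stmt : Prop := ∀ (Γ : Type) [Group Γ] (A : DiscRep Γ),
  (A.NonEl → Infinite Γ) ∧ (A.Discrete → Countable Γ) ∧
  (A.Discrete → ∀ τ : ℝ, 0 < τ → {γ | τ ≤ A.kk γ}.Finite)

/-- B15. Sizes of images of sets of the circle (uses B01, B03, B04, B05, B06). `E ⊆ circ`.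
Proof. `lam (act γ⁻¹ ⁻¹' E) = lax A γ⁻¹ E = ∫⁻_E P(pt γ⁻¹, ·) dlam` by B06, and
`P(q,ξ) = kk γ/|ξ - q|^2 ≥ kk γ/4`; if `|ξ-q| ≥ c` on `E` then `P ≤ kk γ/c^2`. If `|ξ| = 1` and
`act γ⁻¹ ξ ∈ E`: `|ξ - pt γ| = kk γ/|act γ⁻¹ ξ - q| ≤ kk γ/c` by B04 applied to
`act γ⁻¹ ξ`. -/
def B15_stmt : Prop := ∀ (Γ : Type) [Group Γ] (A : DiscRep Γ) (γ : Γ) (E : Set ℂ),
  MeasurableSet E → E ⊆ circ →
  ENNReal.ofReal (A.kk γ / 4) * lam E ≤ lam (A.act γ⁻¹ ⁻¹' E) ∧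
  ∀ c : ℝ, 0 < c → (∀ ξ ∈ E, c ≤ ‖ξ - A.pt γ⁻¹‖) →
    lam (A.act γ⁻¹ ⁻¹' E) ≤ ENNReal.ofReal (A.kk γ / c ^ 2) * lam E ∧
    ∀ ξ ∈ circ, A.act γ⁻¹ ξ ∈ E → ‖ξ - A.pt γ‖ ≤ A.kk γ / c

/-- B16. Density lemma (independent).
Proof. `Besicovitch.ae_tendsto_measure_inter_div_of_measurableSet` (ℂ is a finite dimensional real
normed space): for `m`-a.e. `η ∈ N`, `m (N ∩ closedBall η r) / m (closedBall η r) → 1` as `r → 0+`.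
But for arbitrarily small `r`, `m (N ∩ closedBall η r) ≤ m (closedBall η r) - m S
≤ (1-c) m (closedBall η r)` (finite measures; the balls have positive measure for a.e. `η`, or the
quotient `0/0 = 0` does not tend to 1). -/
def B16_stmt : Prop := ∀ (m : Measure ℂ) [IsFiniteMeasure m] (N : Set ℂ), MeasurableSet N →
  (∀ᵐ η ∂m, η ∈ N → ∃ c : ℝ, 0 < c ∧ ∀ δ : ℝ, 0 < δ → ∃ r : ℝ, 0 < r ∧ r < δ ∧
    ∃ S : Set ℂ, MeasurableSet S ∧ S ⊆ closedBall η r ∧ Disjoint S N ∧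
      ENNReal.ofReal c * m (closedBall η r) ≤ m S) → m N = 0

/-- B17. Comparison of measures by balls (independent).
Proof. `Besicovitch.ae_tendsto_rnDeriv`: for `m`-a.e. `ζ`, `ν (closedBall ζ r)/m (closedBall ζ r)`
tends to `ν.rnDeriv m ζ`, so `ν.rnDeriv m ≤ C` a.e.; and `ν = m.withDensity (ν.rnDeriv m)`. -/
def B17_stmt : Prop := ∀ (m ν : Measure ℂ) [IsFiniteMeasure m] [IsFiniteMeasure ν] (C : ℝ≥0∞),
  C ≠ ⊤ → ν ≪ m →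
  (∀ᵐ ζ ∂m, ∀ δ : ℝ, 0 < δ → ∃ r : ℝ, 0 < r ∧ r < δ ∧
    ν (closedBall ζ r) ≤ C * m (closedBall ζ r)) →
  ∀ E : Set ℂ, MeasurableSet E → ν E ≤ C * m E

/-- B18. Factorisation of the kernel in half plane coordinates (uses B01, B03).
Proof. Put `z = pt x`, `w = pt y`, `h = h_u`. By B03 `kk (x⁻¹ y) = kk x kk y/|1 - z̄ w|^2` and
`|1 - z̄ w| = |h z - conj (h w)| |u+z||u+w|/2`. `Hu ≤ 1` implies `1 ≤ |u + ·| ≤ 2`.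
(1) `|h z - conj (h w)| ≥ |h z| - |h w| ≥ Hu x/2`, so `|1 - z̄ w| ≥ Hu x/4`.
(2) `|h z - conj(h w)| ≤ 2 Hu x`, so `|1-z̄ w| ≤ 4 Hu x`.
(3) `Im (h z) = kk x/|u+z|^2 ≤ |h z|` gives `kk x ≤ 4 Hu x`. -/
def B18_stmt : Prop := ∀ (Γ : Type) [Group Γ] (A : DiscRep Γ) (u : ℂ), ‖u‖ = 1 →
  (∀ x y, A.Hu u x ≤ 1 → A.Hu u y ≤ A.Hu u x / 2 →
    A.kk (x⁻¹ * y) * A.Hu u x ^ 2 ≤ 16 * A.kk x * A.kk y) ∧
  (∀ x y, A.Hu u x ≤ 1 → A.Hu u y ≤ A.Hu u x →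
    A.kk x * A.kk y ≤ 16 * A.Hu u x ^ 2 * A.kk (x⁻¹ * y)) ∧
  (∀ x, A.Hu u x ≤ 1 → A.kk x ≤ 4 * A.Hu u x ∧ 1 ≤ ‖u + A.pt x‖ ∧
    ‖u - A.pt x‖ ≤ 2 * A.Hu u x ∧ A.Hu u x ≤ ‖u - A.pt x‖) ∧
  A.Hu u 1 = 1

end Pool.Agent.SG
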