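import Pool.Agent.helper17.SG.SpecP
import Pool.Agent.helper17.SG.SpecB

/-!
# SpecM: the stationary measure (project sg:)

`nux A ν x = ν.map (act x)` is the harmonic measure seen from `x`. `StdD`: discrete, nonelementary,
`ν` stationary (NOT necessarily cocompact).
-/

set_option autoImplicit false

open MeasureTheory Set Metric Filter Topology
open scoped ENNReal NNReal ComplexConjugate

namespace Pool.Agent.SG

/-- M01. Harmonic measure (uses B01).
Proof. `act x` is measurable, so `nux x E = ν (act x ⁻¹' E)`. Stationarity: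
`ν.map (act x) = ∑ μ s • (ν.map (act s)).map (act x) = ∑ μ s • ν.map (act x ∘ act s)` and
`act x ∘ act s = act (x s)` on the closed disc, hence `ν`-a.e. (`Measure.map_congr`).
The fourth item: `act (x y) ξ = act x (act y ξ)` for `ν`-a.e. `ξ`. `act 1 = id` on the circle.
The last item: harmonicity of `x ↦ nux x E` (for measurable `E`) in the sense of `Walk.Harm`. -/
def M01_stmt : Prop := ∀ (Γ : Type) [Group Γ] (A : DiscRep Γ) (W : Walk Γ) (ν : Measure ℂ),
  Stat A W ν →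
  (∀ x, IsProbabilityMeasure (nux A ν x)) ∧ (∀ x, nux A ν x circᶜ = 0) ∧ nux A ν 1 = ν ∧
  (∀ x y E, MeasurableSet E → nux A ν (x * y) E = nux A ν y (A.act x ⁻¹' E)) ∧
  (∀ x E, MeasurableSet E → nux A ν x E = ν (A.act x ⁻¹' E)) ∧
  (∀ E, MeasurableSet E → W.Harm fun x => nux A ν x E)

/-- M02. `hit x y * nux y E ≤ nux x E` (P02 and M01). -/
def M02_stmt : Prop := ∀ (Γ : Type) [Group Γ] (A : DiscRep Γ) (W : Walk Γ) (ν : Measure ℂ),
  Stat A W ν → ∀ x y E, MeasurableSet E → W.hit x y * nux A ν y E ≤ nux A ν x E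

/-- M03. No atoms (uses M01, B01).
Proof. Suppose some atom. Only finitely many points have mass `≥ ε`, so the maximal mass `m > 0` of a
point is attained, on a finite nonempty set `Z ⊆ circ`. For `ξ ∈ Z`:
`m = ν {ξ} = ∑ μ s * ν (act s ⁻¹' {ξ}) = ∑ μ s * ν {act s⁻¹ ξ}` (up to `ν`-null sets off the
circle), so (weights positive, sum `1`, each mass `≤ m`) `act s⁻¹ ξ ∈ Z` for all `s ∈ S`. So
`act s⁻¹` maps the finite set `Z` injectively into itself, hence onto, hence `act s` maps `Z` into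
itself. The set of `γ` with `act γ Z ⊆ Z` is a submonoid containing `S`, so everything,
contradicting `NonEl`. -/
def M03_stmt : Prop := ∀ (Γ : Type) [Group Γ] (A : DiscRep Γ) (W : Walk Γ) (ν : Measure ℂ),
  Stat A W ν → A.NonEl → ∀ ξ, ν {ξ} = 0

/-- M04. Uniform absence of atoms (general measure theory).
Proof. If not, there are `ε > 0` and `z_n` with `ν (closedBall z_n (1/n)) > ε`; the `z_n` are within
distance `1` of the circle (otherwise the ball has measure `0`), so a subsequence converges to `z`,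
and `ν (closedBall z r) ≥ ε` for all `r > 0`, so `ν {z} ≥ ε` (finite measure, decreasing
intersection). -/
def M04_stmt : Prop := ∀ (ν : Measure ℂ) [IsFiniteMeasure ν], ν circᶜ = 0 → (∀ ξ, ν {ξ} = 0) →
  ∀ ε : ℝ≥0∞, ε ≠ 0 → ∃ r : ℝ, 0 < r ∧ ∀ z : ℂ, ν (closedBall z r) ≤ ε

/-- M05. Most of the harmonic measure of `x` is in the shadow of `x` (uses M01, B04).
Proof. For `|η| = 1` and `q = pt x⁻¹`: `|act x η - pt x| = kk x/|η - q|` (B04), so
`act x η ∉ closedBall (pt x) (C kk x)` implies `|η - q| < 1/C`. So the measure in question is at most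
`ν (closedBall q (1/C))`. -/
def M05_stmt : Prop := ∀ (Γ : Type) [Group Γ] (A : DiscRep Γ) (W : Walk Γ) (ν : Measure ℂ),
  Stat A W ν → ∀ (C : ℝ) (ε : ℝ≥0∞), 0 < C → (∀ z : ℂ, ν (closedBall z (1 / C)) ≤ ε) →
  ∀ x, nux A ν x (closedBall (A.pt x) (C * A.kk x))ᶜ ≤ ε

/-- M06. Exit from large finite sets (uses P05, P07, B10, B14, M01).
Proof. `M` from B10 for `S₀ = S`. `D = {γ | τ < kk γ}` is finite (B14; `τ ≤ 1`, and if `τ = 1` it is
empty: then take `π = exi D 1 = δ_1`, `kk 1 = 1`). Let `π w = exi D 1 w`. P07: `∑ π = 1` and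
`ν' E = nux A ν' 1 E = ∑' w, π w * nux A ν' w E`. P05: `π w ≤ hit 1 w`, and `π w ≠ 0` implies
`w ∉ D`, i.e. `kk w ≤ τ`, and `w = 1` (then `kk w = 1 ≥ τ`) or `w = y s` with `kk y > τ`, so
`kk w ≥ τ/M`. -/
def M06_stmt : Prop := ∀ (Γ : Type) [Group Γ] [Infinite Γ] (A : DiscRep Γ) (W : Walk Γ),
  A.Discrete → ∃ M : ℝ, 1 ≤ M ∧ ∀ τ : ℝ, 0 < τ → τ ≤ 1 → ∃ π : Γ → ℝ≥0∞,
    (∑' w, π w = 1) ∧ (∀ w, π w ≤ W.hit 1 w) ∧
    (∀ w, π w ≠ 0 → τ / M ≤ A.kk w ∧ A.kk w ≤ τ) ∧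
    ∀ ν' : Measure ℂ, Stat A W ν' → ∀ E, MeasurableSet E → ν' E = ∑' w, π w * nux A ν' w E

/-- M07. Uniqueness of the stationary measure (uses M01, M03, M04, M05, M06, B14).
Proof. Both measures have no atoms (M03). Let `φ : ℂ → ℝ` be bounded (by 1) and Lipschitz (constant
`1`), `ε > 0`, `C` with `ν (closedBall z (1/C)) ≤ ε`, `ν' (closedBall z (1/C)) ≤ ε` for all `z`.
For small `τ` and `π` from M06: `∫ φ dν = ∑' w, π w * ∫ φ d(nux ν w)` (the identity for sets extends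
to bounded measurable functions), and
`|∫ φ d(nux ν w) - φ(pt w)| ≤ C τ + 2 ε` (M05; on the shadow `|ξ - pt w| ≤ C kk w ≤ C τ`). The same
for `ν'`. So `|∫ φ dν - ∫ φ dν'| ≤ 2 C τ + 4 ε`; `τ → 0`, then `ε → 0`. Finite measures with equal
integrals of all bounded Lipschitz functions are equal. (Alternative: compare the measures of closed
balls and their slight enlargements.) -/
def M07_stmt : Prop := ∀ (Γ : Type) [Group Γ] (A : DiscRep Γ) (W : Walk Γ) (ν ν' : Measure ℂ),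
  StdD A W ν → Stat A W ν' → ν = ν'

/-- M08. Zero-one law (uses M01, M07).
Proof. If `0 < ν B < 1`, put `ν₁ = (ν B)⁻¹ • ν.restrict B`. It is a probability measure on the circle
and stationary: for measurable `E`, `∑ μ s * ν (act s ⁻¹' E ∩ B) = ∑ μ s * ν (act s ⁻¹' (E ∩ B))
= ν (E ∩ B)` because `ξ ∈ B ↔ act s ξ ∈ B` on the circle. By M07 `ν₁ = ν`, so `ν Bᶜ = ν₁ Bᶜ = 0`, a
contradiction. -/
def M08_stmt : Prop := ∀ (Γ : Type) [Group Γ] (A : DiscRep Γ) (W : Walk Γ) (ν : Measure ℂ),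
  StdD A W ν → ∀ B : Set ℂ, MeasurableSet B →
  (∀ γ, ∀ ξ ∈ circ, (ξ ∈ B ↔ A.act γ ξ ∈ B)) → ν B = 0 ∨ ν Bᶜ = 0

/-- M09. Dichotomy (uses M01, M07, B06).
Proof. Let `ν = ν_s + ν_a` be the Lebesgue decomposition with respect to `lam`
(`Measure.haveLebesgueDecomposition_add`). For every `s`, `map (act s)` maps measures on the circle
that are absolutely continuous (singular) with respect to `lam` to such measures: `lam.map (act s)`
has the density `poi (pt s) > 0` with respect to `lam` (B06), so it has the same null sets, and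
`act s` is a bijection of the circle with inverse `act s⁻¹`. So by uniqueness of the decomposition
`ν_a = ∑ μ s • ν_a.map (act s)`. If `ν_a ≠ 0`, its normalisation is stationary, so equal to `ν` by
M07, and `ν ≪ lam`. If `ν_a = 0` then `ν ⟂ lam`. -/
def M09_stmt : Prop := ∀ (Γ : Type) [Group Γ] (A : DiscRep Γ) (W : Walk Γ) (ν : Measure ℂ),
  StdD A W ν → ν ≪ lam ∨ Measure.MutuallySingular ν lam

/-- The set of points `η` of the circle that are in the `C`-shadow of some `w` with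
`τ/M ≤ kk w ≤ τ` and `hit 1 w ≥ c kk w`. -/
def typ {Γ : Type} [Group Γ] (A : DiscRep Γ) (W : Walk Γ) (M C c τ : ℝ) : Set ℂ :=
  {η | η ∈ circ ∧ ∃ w : Γ, τ / M ≤ A.kk w ∧ A.kk w ≤ τ ∧ ‖η - A.pt w‖ ≤ C * A.kk w ∧
    ENNReal.ofReal (c * A.kk w) ≤ W.hit 1 w}

/-- M10. Typical points (uses M01, M03, M04, M05, M06, B08, B14).
Proof. `typ` is measurable (countable union of closed sets; `Γ` is countable). Let `M` be from M06,
`C_8` from B08 for this `M`, `C` with `ν (closedBall z (1/C)) ≤ ε/2` for all `z` (M04), and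
`c = ε/(2 C_8)` (if `ε = ∞` take `ε = 1`). By M06
`ν typᶜ = ∑' w, π w * nux w typᶜ ≤ ∑'_{w good} π w * nux w (closedBall (pt w) (C kk w))ᶜ
+ ∑'_{w bad} π w`, where `w` is bad if `hit 1 w < c kk w`; the first sum is `≤ ε/2` (M05; the circle
part of the shadow of a good `w` is in `typ`, and `nux w circᶜ = 0`), the second is
`≤ c ∑' kk w ≤ c C_8` over the annulus. -/
def M10_stmt : Prop := ∀ (Γ : Type) [Group Γ] (A : DiscRep Γ) (W : Walk Γ) (ν : Measure ℂ),
  StdD A W ν → ∃ M : ℝ, 1 ≤ M ∧ ∀ ε : ℝ≥0∞, ε ≠ 0 → ∃ C c : ℝ, 1 ≤ C ∧ 0 < c ∧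
    ∀ τ : ℝ, 0 < τ → τ ≤ 1 → MeasurableSet (typ A W M C c τ) ∧ ν (typ A W M C c τ)ᶜ ≤ ε

/-- The set of points that are in `typ` for infinitely many of the scales `2^(-n)`. -/
def con {Γ : Type} [Group Γ] (A : DiscRep Γ) (W : Walk Γ) (M C c : ℝ) : Set ℂ :=
  {η | ∀ k : ℕ, ∃ n : ℕ, k ≤ n ∧ η ∈ typ A W M C c ((1 / 2 : ℝ) ^ n)}

/-- M11. Conical points (uses M10).
Proof. `conᶜ = ⋃ k, ⋂ n ≥ k, (typ ...)ᶜ` is an increasing union of sets of `ν`-measure `≤ ε`. -/
def M11_stmt : Prop := ∀ (Γ : Type) [Group Γ] (A : DiscRep Γ) (W : Walk Γ) (ν : Measure ℂ),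
  StdD A W ν → ∃ M : ℝ, 1 ≤ M ∧ ∀ ε : ℝ≥0∞, ε ≠ 0 → ∃ C c : ℝ, 1 ≤ C ∧ 0 < c ∧
    MeasurableSet (con A W M C c) ∧ ν (con A W M C c)ᶜ ≤ ε

/-- M12. `ν ≪ lam` implies `lam ≪ ν` (uses B01, B03, B04, B05, B14, B15, M01, M02, M11, P04, B16).
Proof. Let `ν N₀ = 0`; want `lam N₀ = 0`; may assume `N₀ ⊆ circ` measurable (`lam circᶜ = 0`). Let
`N = circ ∩ ⋃ γ, act γ ⁻¹' N₀`. `ν (act γ ⁻¹' N₀) = nux γ N₀ ≤ (hit 1 γ)⁻¹ ν N₀ = 0` (M02, P04,
`hit ≤ 1`), so `ν N = 0`; `N` is invariant (`ξ ∈ N ↔ act γ ξ ∈ N` on the circle) and `N₀ ⊆ N`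
(`γ = 1`). Suppose `lam N > 0`. Let `Y = circ \ N`, `ν Y = 1`. By M11 (ε = 1/2) the set
`con ∩ Y` has positive `ν`-measure, hence positive `lam`-measure. By the Lebesgue density theorem
(Besicovitch, or B16 applied to ...) there is `η ∈ con ∩ Y` with
`lam (N ∩ closedBall η r)/lam (closedBall η r) → 0` as `r → 0+`.
Let `c' > 0` be small. For infinitely many `n` there is `w` with `kk w ≤ 2^(-n)` and
`|η - pt w| ≤ C kk w`. Put `J = {ξ ∈ circ | c' ≤ |ξ - pt w⁻¹|}` and `E = N ∩ J`. B15 (for `γ = w`):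
`(kk w/4) lam E ≤ lam (act w⁻¹ ⁻¹' E)`, and the points `ξ` of the circle in this preimage are in `N`
(invariance) and satisfy `|ξ - pt w| ≤ kk w/c'`, so they lie in `closedBall η ((C+1/c') kk w)`. Hence
`lam E ≤ (4/kk w) * o(kk w) → 0`. `lam N ≤ lam E + lam (closedBall (pt w⁻¹) c') ≤ lam E + c'`.
So `lam N ≤ c'` for all `c' > 0`, a contradiction. -/
def M12_stmt : Prop := ∀ (Γ : Type) [Group Γ] (A : DiscRep Γ) (W : Walk Γ) (ν : Measure ℂ),
  StdD A W ν → ν ≪ lam → lam ≪ ν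

end Pool.Agent.SG
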