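import Pool.Agent.helper17.SG.Defs

/-!
# SpecP: finite Markov chain (potential theory) part of project sg:

Everything is about a walk `W` on a group; all functions have values in `ℝ≥0∞`.
Every proof is an induction on the number of steps `n`, uniformly in the starting point `x`,
followed by the supremum over `n` (the sequences are monotone in `n`, P01, P05).
-/

set_option autoImplicit false

open MeasureTheory Set Metric Filter Topology
open scoped ENNReal NNReal ComplexConjugate

namespace Pool.Agent.SG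

/-- P01. Basic properties of the hitting probability.
Proof. Monotonicity in `n`: induction on `n` (for `n = 0` and `x ≠ y` the left side is `0`).
`hitn ≤ 1`: induction, `∑ μ s = 1`. `hit x x = 1`: all terms are `1`. One step equation: both sides
are suprema of monotone sequences; `ENNReal` sums and products commute with suprema of monotone
sequences (`ENNReal.finsetSum_iSup_of_monotone`, `ENNReal.mul_iSup`); the supremum over `n` equals
the supremum over `n + 1`. Left invariance: induction on `n`, `g * x = g * y ↔ x = y`. -/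
def P01_stmt : Prop := ∀ (Γ : Type) [Group Γ] (W : Walk Γ),
  (∀ x y, Monotone fun n => W.hitn n x y) ∧ (∀ x y, W.hit x y ≤ 1) ∧ (∀ x, W.hit x x = 1) ∧
  (∀ x y, x ≠ y → W.hit x y = ∑ s ∈ W.S, W.μ s * W.hit (x * s) y) ∧
  (∀ g x y, W.hit (g * x) (g * y) = W.hit x y)

/-- P02. `h x ≥ hit x y * h y` for harmonic `h`.
Proof. `hitn n x y * h y ≤ h x` by induction on `n`: if `x = y` trivial; otherwise
`hitn (n+1) x y * h y = ∑ μ s * (hitn n (x s) y * h y) ≤ ∑ μ s * h (x s) = h x`. -/
def P02_stmt : Prop := ∀ (Γ : Type) [Group Γ] (W : Walk Γ) (h : Γ → ℝ≥0∞), W.Harm h →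
  ∀ x y, W.hit x y * h y ≤ h x

/-- P03. `hit x y * hit y z ≤ hit x z`.
Proof. Show `hitn n x y * hit y z ≤ hit x z` by induction on `n`. If `x = y` the left side is
at most `hit x z`. If `x ≠ y`: for `n = 0` the left side is `0`. For `n + 1`:
if `x = z` then `hit x z = 1` and the left side is at most `1` (P01); if `x ≠ z` use the one step
equation of P01: `∑ μ s * (hitn n (x s) y * hit y z) ≤ ∑ μ s * hit (x s) z = hit x z`. -/
def P03_stmt : Prop := ∀ (Γ : Type) [Group Γ] (W : Walk Γ) (x y z : Γ),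
  W.hit x y * W.hit y z ≤ W.hit x z

/-- P04. Hitting probabilities are positive.
Proof. By left invariance it is enough to show `hit 1 g ≠ 0` for all `g`. The set of `g` with
`hit 1 g ≠ 0` contains `1`, and contains `S` (`hit 1 s ≥ hitn 1 1 s ≥ μ s` or `s = 1`), and is
closed under multiplication: `hit 1 (g h) ≥ hit 1 g * hit g (g h) = hit 1 g * hit 1 h` (P03).
It contains the closure of `S`, which is everything (`Submonoid.closure_induction`). -/
def P04_stmt : Prop := ∀ (Γ : Type) [Group Γ] (W : Walk Γ) (x y : Γ), W.hit x y ≠ 0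

/-- P05. Basic properties of the exit distribution.
Proofs by induction on `n` for `exn`. (1) monotone. (2) `exn D n x w ≤ hitn n x w`: if `x ∉ D` then
`exn` is `1` exactly if `x = w`, and `hitn n x x = 1`; if `x ∈ D` and `w ∉ D` then `x ≠ w` and use
the induction hypothesis; if `x ∈ D` and `w ∈ D` then `exn D n x w = 0` (see (3)).
(3) if `exn D n x w ≠ 0` then `w ∉ D`, and `w = x` or `w = y * s` with `y ∈ D`, `s ∈ S`:
for `x ∈ D` some term `exn D n (x s) w ≠ 0` and `μ s ≠ 0`; by induction `w = x s` (then take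
`y = x`) or the second alternative. (4) `exn D n w w = 1` for `w ∉ D`. (5) one step equation for
`x ∈ D` from the suprema (as in P01). (6) for `x ∉ D`, `exi D x w = if x = w then 1 else 0`. -/
def P05_stmt : Prop := ∀ (Γ : Type) [Group Γ] (W : Walk Γ) (D : Set Γ),
  (∀ x w, Monotone fun n => W.exn D n x w) ∧ (∀ x w, W.exi D x w ≤ W.hit x w) ∧
  (∀ x w, W.exi D x w ≠ 0 → w ∉ D ∧ (w = x ∨ ∃ y ∈ D, ∃ s ∈ W.S, w = y * s)) ∧
  (∀ w, w ∉ D → W.exi D w w = 1) ∧
  (∀ x, x ∈ D → ∀ w, W.exi D x w = ∑ s ∈ W.S, W.μ s * W.exi D (x * s) w) ∧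
  (∀ x w, x ∉ D → x ≠ w → W.exi D x w = 0)

/-- P06. Balayage inequality.
Proof. `∑' w, exn D n x w * h w ≤ h x` by induction on `n`: for `x ∉ D` the sum is `h x`
(`tsum_eq_single x`); for `x ∈ D` and `n = 0` it is `0`; for `n + 1` exchange the finite sum with
the `tsum` (`ENNReal.tsum_finsetSum`...): `∑ μ s * ∑' w, exn D n (x s) w * h w ≤ ∑ μ s * h (x s)`.
Then the supremum over `n` (`ENNReal.tsum_eq_iSup_sum`, or `lintegral_iSup` for the counting
measure; for a finite set of `w` the sums of suprema are suprema of sums). -/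
def P06_stmt : Prop := ∀ (Γ : Type) [Group Γ] (W : Walk Γ) (D : Set Γ) (h : Γ → ℝ≥0∞), W.Harm h →
  ∀ x, ∑' w, W.exi D x w * h w ≤ h x

/-- P07. Balayage identity for finite `D` in an infinite group.
Proof. Let `q n x` be the probability to stay in `D` during the times `0..n` (`q 0 x = 1_D x`,
`q (n+1) x = 1_D x * ∑ μ s * q n (x s)`). By induction on `n`, if `h ≤ M`,
`h x ≤ ∑' w, exn D n x w * h w + M * q n x` (for `x ∉ D` the first term is `h x`).
Claim: `q n x → 0`. For every `x ∈ D` there is `n` with `q n x < 1`: otherwise `q n x = 1` for all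
`n`, and then (induction, weights positive with sum `1`) `x * s ∈ D` and `q n (x * s) = 1` for all
`n` and `s ∈ S`, hence `x * g ∈ D` for all `g` in the closure of `S`, i.e. `Γ = x Γ ⊆ D` is
finite. `q` is decreasing in `n`, so there are `N` and `θ < 1` with `q N x ≤ θ` for all `x ∈ D`
(finite) and all `x` (`q = 0` outside `D`); `q (n + N) x ≤ θ * q n x`; so `q → 0`.
Now let `n → ∞` (`M < ∞`): `h x ≤ ∑' w, exi D x w * h w`; the other inequality is P06.
The second statement is the case `h = 1`. -/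
def P07_stmt : Prop := ∀ (Γ : Type) [Group Γ] [Infinite Γ] (W : Walk Γ) (D : Set Γ), D.Finite →
  (∀ h : Γ → ℝ≥0∞, W.Harm h → (∃ M : ℝ≥0∞, M ≠ ⊤ ∧ ∀ x, h x ≤ M) →
    ∀ x, h x = ∑' w, W.exi D x w * h w) ∧ ∀ x, ∑' w, W.exi D x w = 1

/-- P08. Balayage identity for infinite `D`, if `h` tends to `0` at infinity in `D`.
Proof. `≥` is P06. For `≤` let `0 < ε < ∞` and `D' = {x ∈ D | ε < h x}`, a finite set. By P07
`h x = ∑' w, exi D' x w * h w`. A `w` with `exi D' x w ≠ 0` is not in `D'`, so either `w ∉ D` or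
`h w ≤ ε`. For `w ∉ D`: `exi D' x w ≤ exi D x w` (induction on `n`: `exn D' n x w ≤ exn D n x w`
for `w ∉ D`, using `D' ⊆ D`: for `x ∈ D'` termwise; for `x ∈ D \ D'` the left side is `0` because
`x ≠ w`; for `x ∉ D` equal). So `h x ≤ ∑' w, exi D x w * h w + ε * ∑' w, exi D' x w
≤ ∑' w, exi D x w * h w + ε`. -/
def P08_stmt : Prop := ∀ (Γ : Type) [Group Γ] [Infinite Γ] (W : Walk Γ) (D : Set Γ)
  (h : Γ → ℝ≥0∞), W.Harm h → (∃ M : ℝ≥0∞, M ≠ ⊤ ∧ ∀ x, h x ≤ M) →
  (∀ ε : ℝ≥0∞, ε ≠ 0 → {x | x ∈ D ∧ ε < h x}.Finite) →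
  ∀ x, h x = ∑' w, W.exi D x w * h w

/-- P09. First exit decomposition of the hitting probability.
Proof. `hitn n x y ≤ hid D x y + ∑' w, exi D x w * hit w y` by induction on `n`.
If `x ∉ D`: the sum contains the term `w = x`, `exi D x x = 1`, so it is at least `hit x y`.
If `x ∈ D` and `x = y`: `hid D x y ≥ hdn D 0 x x = 1`. If `x ∈ D`, `x ≠ y`: for `n = 0` the left
side is `0`; for `n + 1` use the one step equations
`hid D x y = ∑ μ s * hid D (x s) y` (same proof as in P01) and P05 (5):
the right side equals `∑ μ s * (hid D (x s) y + ∑' w, exi D (x s) w * hit w y)`. -/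
def P09_stmt : Prop := ∀ (Γ : Type) [Group Γ] (W : Walk Γ) (D : Set Γ) (x y : Γ),
  W.hit x y ≤ W.hid D x y + ∑' w, W.exi D x w * W.hit w y

/-- P10. Strong Markov property for the exit distribution.
Proof. `hdn D n x y * exi D y w ≤ exi D x w` by induction on `n`, for all `x`. If `x ∉ D` then
`hdn = 0`. If `x ∈ D` and `x = y`: `hdn ≤ 1`. If `x ∈ D`, `x ≠ y`: for `n = 0` it is `0`; for
`n + 1`: `∑ μ s * (hdn D n (x s) y * exi D y w) ≤ ∑ μ s * exi D (x s) w = exi D x w`. -/
def P10_stmt : Prop := ∀ (Γ : Type) [Group Γ] (W : Walk Γ) (D : Set Γ) (x y w : Γ),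
  W.hid D x y * W.exi D y w ≤ W.exi D x w

end Pool.Agent.SG
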