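import Pool.Agent.helper17.SG.SpecM

/-!
# SpecR: absolutely continuous stationary measures: hitting probabilities are comparable with `kk`,
the density is bounded above (and below if cocompact) (project sg:)

Everything of SpecP, SpecB, SpecM may be used.
-/

set_option autoImplicit false

open MeasureTheory Set Metric Filter Topology
open scoped ENNReal NNReal ComplexConjugate

namespace Pool.Agent.SG

/-- R01. Equivalent finite measures (independent).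
Proof. `f = ν.rnDeriv m`, `ν = m.withDensity f`, `f > 0` `ν`-a.e. (`Measure.rnDeriv_pos`), so
`m`-a.e.; the sets `{f < 1/(n+1)}` decrease to a subset of the `m`-null set `{f = 0}`
(`tendsto_measure_iInter_atTop`), take `n` with `m {f < 1/(n+1)} ≤ ε` and `A₁ = {1/(n+1) ≤ f}`.
Second part: `m = ν.withDensity g` with integrable `g`, `exists_pos_setLIntegral_lt_of_measure_lt`
(there: `ν E < δ'`; take `δ = δ'/2`). -/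
def R01_stmt : Prop := ∀ (m ν : Measure ℂ) [IsFiniteMeasure m] [IsFiniteMeasure ν],
  ν ≪ m → m ≪ ν → ∀ ε : ℝ≥0∞, ε ≠ 0 →
  (∃ c : ℝ, 0 < c ∧ ∃ A₁ : Set ℂ, MeasurableSet A₁ ∧ m A₁ᶜ ≤ ε ∧
    ∀ E, MeasurableSet E → E ⊆ A₁ → ENNReal.ofReal c * m E ≤ ν E) ∧
  ∃ δ : ℝ≥0∞, δ ≠ 0 ∧ ∀ E, MeasurableSet E → ν E ≤ δ → m E ≤ ε

/-- R02. Pieces of the images of a good set (uses B01, B03, B04, B05, B13, B15, M01, M02, M12, P01,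
P03, P04, R01).
Proof. `T₀, c₀` from B13; `k₀ = min kk t`, `h₀ = min hit 1 t` over `t ∈ T₀` (positive). By M12 and
R01 with `ε = 1/16`: `c₁, A₁`; may assume `A₁ ⊆ circ` (intersect, `lam circᶜ = 0`).
Let `u : Γ`, and `w` with `c kk w ≤ hit 1 w`. Take `t ∈ T₀` with
`c₀ ≤ |1 - conj(pt w⁻¹) act t (pt u)|` and `v = w t u`, `δ = t u`, `pt δ = act t (pt u)`.
B03: `kk v = kk w kk δ/|..|^2 ≤ kk w kk δ/c₀^2`, `kk δ ≤ 4 kk u/kk t`; so `kk v ≤ C₂ kk w kk u` with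
`C₂ = 4/(c₀^2 k₀)`. Also `kk v ≥ kk w kk δ/4 ≥ kk w kk u k₀/16`, `|pt v - pt w| ≤ kk w/c₀`.
Let `J = {ξ | 1/2 ≤ |ξ - pt v⁻¹|}`, `B = A₁ ∩ J`: `lam B ≥ 1 - 1/16 - 1/2 ≥ 1/4` (B05).
`S = circ ∩ act v⁻¹ ⁻¹' B`. B15 (γ = v): `lam S ≥ (kk v/4) lam B ≥ kk v/16`, so
`cu = k₀ kk u/256`; and for `ξ ∈ S`: `|ξ - pt v| ≤ 2 kk v`, so
`|ξ - pt w| ≤ (2 C₂ + 1/c₀) kk w`, `C' = 1 + 2 C₂ + 1/c₀`.
Let `E ⊆ S`, `E' = circ ∩ act v ⁻¹' E`. Then `E' ⊆ B` and `E ⊆ act v⁻¹ ⁻¹' E'` (B01), so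
`lam E ≤ 4 kk v lam E'` (B15 with constant `1/2`), and `ν E ≥ hit 1 v * nux v E` (M02, M01)
`≥ hit 1 v * ν E' ≥ hit 1 v * c₁ * lam E'`. So `4 kk v * ν E ≥ c₁ * hit 1 v * lam E` and
`hit 1 v ≥ hit 1 w * hit 1 t * hit 1 u ≥ c kk w h₀ hit 1 u` (P03, P01). Cancel `kk w` (positive,
finite): `4 C₂ kk u * ν E ≥ c₁ c h₀ hit 1 u lam E`. `c₃ = c₁ c h₀/(4 C₂)`. -/
def R02_stmt : Prop := ∀ (Γ : Type) [Group Γ] (A : DiscRep Γ) (W : Walk Γ) (ν : Measure ℂ),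
  StdD A W ν → ν ≪ lam → ∀ c : ℝ, 0 < c → ∃ C' : ℝ, 1 ≤ C' ∧ ∃ c₃ : ℝ, 0 < c₃ ∧
    ∀ u : Γ, ∃ cu : ℝ, 0 < cu ∧ ∀ w, ENNReal.ofReal (c * A.kk w) ≤ W.hit 1 w →
      ∃ S : Set ℂ, MeasurableSet S ∧ S ⊆ closedBall (A.pt w) (C' * A.kk w) ∧
        ENNReal.ofReal (cu * A.kk w) ≤ lam S ∧
        ∀ E, MeasurableSet E → E ⊆ S →
          ENNReal.ofReal c₃ * W.hit 1 u * lam E ≤ A.ke u * ν E

/-- R03. Conical points for `lam` (uses M11, M12, R01 second part). -/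
def R03_stmt : Prop := ∀ (Γ : Type) [Group Γ] (A : DiscRep Γ) (W : Walk Γ) (ν : Measure ℂ),
  StdD A W ν → ν ≪ lam → ∃ M : ℝ, 1 ≤ M ∧ ∀ ε : ℝ≥0∞, ε ≠ 0 → ∃ C c : ℝ, 1 ≤ C ∧ 0 < c ∧
    MeasurableSet (con A W M C c) ∧ lam (con A W M C c)ᶜ ≤ ε

/-- R04. UPPER BOUND for the hitting probabilities (uses R02, R03, B05, B14, B16).
Proof. `M, C, c` from R03 with `ε = 1/4`, so `lam con ≥ 3/4`. `C', c₃` from R02 for this `c`. Let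
`u : Γ`, and `S w` the set of R02 for `w` with `c kk w ≤ hit 1 w`. `Γ` is countable (B14), let `U` be
the union of all `S w`. For measurable `E ⊆ U`: `c₃ hit 1 u lam E ≤ kk u ν E` (write `E` as a
countable disjoint union of measurable pieces contained in some `S w`). `N = con \ U` is `lam`-null:
B16 with `m = lam`: for `η ∈ N` and `δ > 0` there are arbitrarily large `n` and `w` with
`kk w ≤ 2^(-n)`, `|η - pt w| ≤ C kk w`, `c kk w ≤ hit 1 w`; put `r = (C + C') kk w < δ`, `S = S w ⊆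
closedBall η r`, disjoint from `N`, and `lam S ≥ cu kk w ≥ (cu/(C+C')) lam (closedBall η r)` (B05).
So `lam U ≥ 3/4`, and with `E = U`: `(3/4) c₃ hit 1 u ≤ kk u`. -/
def R04_stmt : Prop := ∀ (Γ : Type) [Group Γ] (A : DiscRep Γ) (W : Walk Γ) (ν : Measure ℂ),
  StdD A W ν → ν ≪ lam → ∃ C : ℝ, 1 ≤ C ∧ ∀ u, W.hit 1 u ≤ ENNReal.ofReal (C * A.kk u)

/-- The points just behind the geodesic `{Hu u = t}`, within a bounded number of steps. -/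
def lay {Γ : Type} [Group Γ] (A : DiscRep Γ) (u : ℂ) (M t : ℝ) : Set Γ :=
  {γ | A.Hu u γ < t ∧ |A.Hu u γ - t| ≤ M * A.kk γ}

/-- R05. Layers (uses P05, P09, B09, B10, B18).
Proof. Let `D = {γ | t ≤ Hu u γ}` and `M₀` the constant of B10 for `S₀` = the set of inverses of
elements of `S`. (a) Let `exi D x w ≠ 0`, `x ∈ D`. By P05 (3) `w ∉ D` and `w = y s`, `y ∈ D`,
`s ∈ S` (`w = x` is impossible). `Hu w < t ≤ 1` so `|Hu (w s⁻¹) - Hu w| ≤ M kk w`, hence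
`Hu w < t ≤ Hu y ≤ Hu w + M kk w`. (b) P09 with this `D`: `hid D x w = 0` since `w ∉ D` (induction on
`n`), and `exi D x p ≤ hit x p` (P05), `exi D x p ≠ 0 → p ∈ lay` by (a).
(c) `t - Hu w ≤ M kk w ≤ 4 M Hu w` and `kk w ≤ 4 Hu w` by B18 (3). (d) B09. -/
def R05_stmt : Prop := ∀ (Γ : Type) [Group Γ] (A : DiscRep Γ) (W : Walk Γ), A.Discrete →
  ∃ M₀ : ℝ, 1 ≤ M₀ ∧ ∀ M : ℝ, M₀ ≤ M → ∃ C : ℝ, 0 < C ∧ ∀ (u : ℂ) (t : ℝ), ‖u‖ = 1 → 0 < t →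
    t ≤ 1 →
    (∀ x w, t ≤ A.Hu u x → W.exi {γ | t ≤ A.Hu u γ} x w ≠ 0 → w ∈ lay A u M t) ∧
    (∀ x w, t ≤ A.Hu u x → A.Hu u w < t →
      W.hit x w ≤ ∑' p, (lay A u M t).indicator (fun p => W.hit x p * W.hit p w) p) ∧
    (∀ w ∈ lay A u M t, t ≤ (1 + 4 * M) * A.Hu u w ∧ A.kk w ≤ 4 * t) ∧
    (∀ η : ℝ, 0 < η → ∑' γ, (lay A u M t ∩ {γ | A.kk γ ≤ η * t}).indicator A.ke γ ≤
      ENNReal.ofReal (C * η * t))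

/-- R06. First crossing (uses R05 (a), P05, P08, M01, M03, M04, B01, B04, B14, B18).
Proof. `t = 2 r ≤ 1/2`, `D = {γ | t ≤ Hu u γ}`, `I = circ ∩ closedBall u r`, `h γ = nux γ I`,
harmonic, bounded by `1`. `1 ∈ D` since `Hu u 1 = 1`. For `γ ∈ D`, `p = pt γ`: `|u - p| ≥ 2 r` (if
`|u - p| < 1` then `|u + p| > 1`, and `|u - p| = Hu |u + p| ≥ 2 r`), so `|ξ - p| ≥ r` for `ξ ∈ I`.
If `|η| = 1` and `act γ η ∈ I` then `|η - pt γ⁻¹| = kk γ/|act γ η - p| ≤ kk γ/r` (B04). So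
`h γ ≤ ν (closedBall (pt γ⁻¹) (kk γ/r))`; by M04 `ε < h γ` implies `kk γ ≥ ρ r` for some `ρ > 0`
depending on `ε` only: finitely many (B14). P08: `ν I = nux 1 I = ∑' w, exi D 1 w * nux w I
≤ ∑' w, exi D 1 w`, and `exi D 1 w ≤ hit 1 w` is `0` unless `w ∈ lay`. -/
def R06_stmt : Prop := ∀ (Γ : Type) [Group Γ] (A : DiscRep Γ) (W : Walk Γ) (ν : Measure ℂ),
  StdD A W ν → ∃ M₀ : ℝ, 1 ≤ M₀ ∧ ∀ M : ℝ, M₀ ≤ M → ∀ (u : ℂ) (r : ℝ), ‖u‖ = 1 → 0 < r →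
    r ≤ 1 / 4 →
    ν (closedBall u r) ≤ ∑' p, (lay A u M (2 * r)).indicator (fun p => W.hit 1 p) p

/-- R07. The density is bounded above (uses R04, R05, R06, B05, B17).
Proof. By R06, R04 and R05 (c), (d) with `η = 4`: `ν (closedBall u r) ≤ C_U * C * 4 * 2 r` for
`‖u‖ = 1`, `0 < r ≤ 1/4`, and `lam (closedBall u r) ≥ r/4` (B05). Then B17. -/
def R07_stmt : Prop := ∀ (Γ : Type) [Group Γ] (A : DiscRep Γ) (W : Walk Γ) (ν : Measure ℂ),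
  StdD A W ν → ν ≪ lam → ∃ C : ℝ, 1 ≤ C ∧ ∀ E, MeasurableSet E → ν E ≤ ENNReal.ofReal C * lam E

/-- R08. Three lines estimate (uses R04, R05, R06, B03, B14, B18, P01, P03, P04).
Proof. `M` large enough for R05 and R06, `C` from R05, `K₀ = 1 + 4 M`, `C_U` from R04:
`hit a b = hit 1 (a⁻¹ b) ≤ C_U kk (a⁻¹ b)` (P01). `κ = 1/(4 K₀)`.
`t₁ = kk w`, `t₂ = kk v ≤ t₁/(2 K₀)`, `t₃ = 2 r ≤ t₂/(2 K₀)`, `L_i = lay A ζ M t_i`. For `p ∈ L_i`: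
`t_i/K₀ ≤ Hu p < t_i`, `kk p ≤ 4 t_i`.
Step 1. `ν (closedBall ζ r) ≤ ∑_{p₃ ∈ L₃} hit 1 p₃` (R06).
Step 2. R05 (b) with `x = 1`, `t = t₁`: `hit 1 p₃ ≤ ∑_{p₁ ∈ L₁} hit 1 p₁ hit p₁ p₃`; for `p₁ ∈ L₁`,
`Hu p₁ ≥ t₁/K₀ ≥ t₂`, R05 (b) with `x = p₁`, `t = t₂`: `hit p₁ p₃ ≤ ∑_{p₂ ∈ L₂} hit p₁ p₂ hit p₂ p₃`.
Step 3. `Hu p₃ < t₃ ≤ t₂/(2 K₀) ≤ Hu p₂/2`, so by B18 (1)
`hit p₂ p₃ ≤ C_U 16 K₀^2 kk p₂ kk p₃/t₂^2`, and R05 (d) (`η = 4`):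
`∑_{p₃ ∈ L₃} hit p₂ p₃ ≤ C₃ (kk p₂/t₂^2) t₃`, `C₃ = 64 C_U K₀^2 C`.
Step 4. So `ν (closedBall ζ r) ≤ C₃ t₃ t₂^(-2) T`, `T = ∑_{p₁ ∈ L₁} ∑_{p₂ ∈ L₂} hit 1 p₁ hit p₁ p₂
kk p₂`. Use `hit 1 p₁ ≤ C_U kk p₁` and (B18 (1)) `hit p₁ p₂ ≤ 16 C_U K₀^2 kk p₁ kk p₂/t₁^2`.
Step 5. The part of `T` with `kk p₁ ≤ η t₁` is at most
`16 C_U^2 K₀^2 t₁^(-2) (∑ kk p₁^2) (∑ kk p₂^2) ≤ 16 C_U^2 K₀^2 t₁^(-2) (η t₁ C η t₁) (4 t₂ 4 C t₂)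
= 256 C_U^2 K₀^2 C^2 η^2 t₂^2`, and in the same way the part with `kk p₂ ≤ η t₂`.
Step 6. The part with `kk p₁ > η t₁`, `kk p₂ > η t₂`. By P03 `hit w p₁ hit p₁ p₂ hit p₂ v ≤
hit w v`. `|1 - conj(pt w) pt p₁| ≤ (1 - |pt w|^2) + |pt w - pt p₁| ≤ kk w + C₁ kk w + 2 Hu p₁
≤ (C₁ + 3) kk w` (B18 (3)), so by B03 `kk (w⁻¹ p₁) ≥ kk w η kk w/((C₁+3) kk w)^2
= η/(C₁+3)^2`. So `w⁻¹ p₁` is in the finite set `F = {γ | η/(C₁+3)^2 ≤ kk γ}` (B14), closed under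
inverses; let `n` be its cardinality and `a = min_{γ ∈ F} hit 1 γ > 0` (P04). In the same way
`v⁻¹ p₂ ∈ F`. So `hit p₁ p₂ ≤ hit w v/a^2`, and the part is at most
`n^2 C_U 4 t₁ 4 t₂ hit w v/a^2`.
Together: `ν (closedBall ζ r) ≤ C₃ 2 r (512 C_U^2 K₀^2 C^2 η^2 + 16 n^2 C_U a^(-2) (t₁/t₂) hit w v)`
and `η^2 ≤ η`. -/
def R08_stmt : Prop := ∀ (Γ : Type) [Group Γ] (A : DiscRep Γ) (W : Walk Γ) (ν : Measure ℂ),
  StdD A W ν → ν ≪ lam → ∀ C₁ : ℝ, 1 ≤ C₁ → ∃ κ : ℝ, 0 < κ ∧ κ ≤ 1 ∧ ∃ Ca : ℝ, 0 < Ca ∧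
    ∀ η : ℝ, 0 < η → η ≤ 1 → ∃ Cb : ℝ, 0 < Cb ∧ ∀ (ζ : ℂ) (w v : Γ) (r : ℝ), ‖ζ‖ = 1 →
      A.kk v ≤ κ * A.kk w → ‖ζ - A.pt w‖ ≤ C₁ * A.kk w → ‖ζ - A.pt v‖ ≤ C₁ * A.kk v →
      0 < r → r ≤ κ * A.kk v →
      ν (closedBall ζ r) ≤ (ENNReal.ofReal (Ca * η) +
        ENNReal.ofReal (Cb * (A.kk w / A.kk v)) * W.hit w v) * ENNReal.ofReal r

/-- R09. LOWER BOUND for the hitting probabilities (uses R03, R08, B03, B05, B13, B14, B16, B17,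
P01, P03, P04).
Proof. `T₀, c₀` from B13, `k₀ = min kk s`, `h₀ = min hit 1 s⁻¹` over `s ∈ T₀`. Let `x : Γ`. For
every `w` choose `s ∈ T₀` with `c₀ ≤ |1 - conj(pt w⁻¹) act s (pt x)|`, `v = v(w) = w s x`. B03:
`kk v ≤ C₂ kk x kk w`, `C₂ = 4/(c₀^2 k₀)`, `kk v ≥ (k₀/16) kk x kk w`, `|pt v - pt w| ≤ kk w/c₀`.
`Sh w = {ζ ∈ circ | |ζ - pt v| ≤ 2 kk v}`. For `ζ ∈ Sh w`: `|ζ - pt w| ≤ (2 C₂ + 1/c₀) kk w`.
Put `C₁ = 2 + 2 C₂ + 1/c₀`, `κ, Ca` from R08, `η = min(1, 1/(8 Ca))`, `Cb` from R08. Suppose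
`kk x ≤ κ/C₂`, so `kk v ≤ κ kk w`. For `ζ ∈ Sh w` and small `r`, by R08 and
`lam (closedBall ζ r) ≥ r/4`: `ν (closedBall ζ r) ≤ δ lam (closedBall ζ r)` with
`δ = 4 Ca η + (64 Cb/(k₀ h₀)) hit 1 x/kk x`, because `hit w v = hit 1 (s x)`,
`hit 1 s⁻¹ * hit s⁻¹ x ≤ hit 1 x` and `hit s⁻¹ x = hit 1 (s x)` (P01, P03).
The union of all `Sh w` (over all `w`) has full `lam` measure: `lam (Sh w) ≥ kk v/4` (it contains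
`circ ∩ closedBall ξ (kk v)` with `ξ = pt v/|pt v|`, or `ξ = 1` if `pt v = 0`, since
`1 - |pt v| ≤ kk v`), and for `lam`-a.e. `η'` there is `C` such that `|η' - pt w| ≤ C kk w` for `w`
with arbitrarily small `kk w` (R03 for `ε = 1/(j+1)`); apply B16 to the complement (in `circ`) of the
union. So B17 with `E = univ` gives `1 = ν univ ≤ δ` (`ν ≪ lam`). As `4 Ca η ≤ 1/2`,
`hit 1 x ≥ k₀ h₀/(128 Cb) * kk x`. The finitely many (B14) `x` with `kk x > κ/C₂` have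
`hit 1 x ≥ c' ≥ c' kk x` for some `c' > 0` (P04). -/
def R09_stmt : Prop := ∀ (Γ : Type) [Group Γ] (A : DiscRep Γ) (W : Walk Γ) (ν : Measure ℂ),
  StdD A W ν → ν ≪ lam → ∃ c : ℝ, 0 < c ∧ ∀ x, ENNReal.ofReal (c * A.kk x) ≤ W.hit 1 x

/-- R10. The density is bounded below (cocompact case) (uses R09, B05, B11, B12, B17, M01 - M05,
M12).
Proof. `StdD` by B12. `R` with `ν (closedBall z (1/R)) ≤ 1/2` for all `z` (M03, M04), `C` from B11,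
`c` from R09. Let `ζ ∈ circ`, `0 < r ≤ 1`, `t = r/(C (1 + R))`, `w` from B11 for `ζ, t`.
`closedBall (pt w) (R kk w) ⊆ closedBall ζ (C t + R C t) = closedBall ζ r` and
`nux w (closedBall (pt w) (R kk w)) ≥ 1/2` (M05, M01), so by M02 and R09
`ν (closedBall ζ r) ≥ hit 1 w * (1/2) ≥ c kk w/2 ≥ c t/(2 C) = c r/(2 C^2 (1+R))
≥ c/(2 C^2 (1+R)) lam (closedBall ζ r)`. B17 with `m = ν` and the measure `lam`, `lam ≪ ν` by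
M12. -/
def R10_stmt : Prop := ∀ (Γ : Type) [Group Γ] (A : DiscRep Γ) (W : Walk Γ) (ν : Measure ℂ),
  Std A W ν → ν ≪ lam → ∃ C : ℝ, 1 ≤ C ∧ ∀ E, MeasurableSet E → lam E ≤ ENNReal.ofReal C * ν E

/-- R11. Summary in the cocompact case (uses R04, R07, R09, R10, B01, B12, M01, P01). All with one
constant. `nux x E = ν (act x ⁻¹' E)`, `lax x E = lam (act x ⁻¹' E)`,
`hit x y = hit 1 (x⁻¹ y)`. -/
def R11_stmt : Prop := ∀ (Γ : Type) [Group Γ] (A : DiscRep Γ) (W : Walk Γ) (ν : Measure ℂ),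
  Std A W ν → ν ≪ lam → ∃ C : ℝ, 1 ≤ C ∧
    (∀ x E, MeasurableSet E → nux A ν x E ≤ ENNReal.ofReal C * lax A x E ∧
      lax A x E ≤ ENNReal.ofReal C * nux A ν x E) ∧
    (∀ x y, W.hit x y ≤ ENNReal.ofReal (C * A.kk (x⁻¹ * y)) ∧
      ENNReal.ofReal (A.kk (x⁻¹ * y) / C) ≤ W.hit x y)

end Pool.Agent.SG
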